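import Mathlib

/-!
Dimension of the space of matrices with columns in `U` and rows in `V`.
-/

set_option autoImplicit false

namespace Pool.Agent.W253.STP

variable {K X Y : Type} [Field K]

/-- matrices with columns in `U` and rows in `V` -/
def Wm (U : Submodule K (X → K)) (V : Submodule K (Y → K)) : Submodule K (X → Y → K) where
  carrier := {M | (∀ y, (fun x => M x y) ∈ U) ∧ ∀ x, M x ∈ V}
  add_mem' := fun ha hb => ⟨fun y => U.add_mem (ha.1 y) (hb.1 y), fun x => V.add_mem (ha.2 x) (hb.2 x)⟩
  zero_mem' := ⟨fun _ => U.zero_mem, fun _ => V.zero_mem⟩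
  smul_mem' := fun r _ ha => ⟨fun y => U.smul_mem r (ha.1 y), fun x => V.smul_mem r (ha.2 x)⟩

lemma mem_Wm {U : Submodule K (X → K)} {V : Submodule K (Y → K)} {M : X → Y → K} :
    M ∈ Wm U V ↔ (∀ y, (fun x => M x y) ∈ U) ∧ ∀ x, M x ∈ V := Iff.rfl

/-- matrices from coefficient rows -/
noncomputable def gl (U : Submodule K (X → K)) (V : Submodule K (Y → K)) [Module.Finite K U] :
    (Fin (Module.finrank K U) → V) →ₗ[K] Wm U V where
  toFun v := ⟨fun x y => ∑ s, (Module.finBasis K U s : X → K) x * (v s : Y → K) y, by
    constructor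
    · intro y
      have : (fun x => ∑ s, (Module.finBasis K U s : X → K) x * (v s : Y → K) y) =
          ∑ s, (v s : Y → K) y • (Module.finBasis K U s : X → K) := by
        funext x
        simp only [Finset.sum_apply, Pi.smul_apply, smul_eq_mul]
        exact Finset.sum_congr rfl (fun s _ => mul_comm _ _)
      rw [this]
      exact U.sum_mem (fun s _ => U.smul_mem _ (Module.finBasis K U s).2)
    · intro x
      have : (fun y => ∑ s, (Module.finBasis K U s : X → K) x * (v s : Y → K) y) =
          ∑ s, (Module.finBasis K U s : X → K) x • (v s : Y → K) := by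
        funext y
        simp only [Finset.sum_apply, Pi.smul_apply, smul_eq_mul]
      show (fun y => ∑ s, (Module.finBasis K U s : X → K) x * (v s : Y → K) y) ∈ V
      rw [this]
      exact V.sum_mem (fun s _ => V.smul_mem _ (v s).2)⟩
  map_add' v w := by
    apply Subtype.ext
    funext x y
    simp [mul_add, Finset.sum_add_distrib]
  map_smul' r v := by
    apply Subtype.ext
    funext x y
    simp only [Pi.smul_apply, RingHom.id_apply, Submodule.coe_smul, smul_eq_mul, Finset.mul_sum]
    exact Finset.sum_congr rfl (fun s _ => by ring)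

lemma gl_apply (U : Submodule K (X → K)) (V : Submodule K (Y → K)) [Module.Finite K U]
    (v : Fin (Module.finrank K U) → V) (x : X) (y : Y) :
    (gl U V v : X → Y → K) x y = ∑ s, (Module.finBasis K U s : X → K) x * (v s : Y → K) y := rfl

lemma gl_injective (U : Submodule K (X → K)) (V : Submodule K (Y → K)) [Module.Finite K U] :
    Function.Injective (gl U V) := by
  rw [injective_iff_map_eq_zero]
  intro v hv
  funext s
  apply Subtype.ext
  funext y
  have h1 : ∑ s, (v s : Y → K) y • Module.finBasis K U s = 0 := by
    apply Subtype.ext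
    funext x
    have h2 : (gl U V v : X → Y → K) x y = 0 := by rw [hv]; rfl
    rw [gl_apply] at h2
    rw [Submodule.coe_sum, Finset.sum_apply]
    simp only [Submodule.coe_smul, Pi.smul_apply, smul_eq_mul]
    refine Eq.trans ?_ h2
    exact Finset.sum_congr rfl (fun s _ => mul_comm _ _)
  have h3 := (Fintype.linearIndependent_iff.1 (Module.finBasis K U).linearIndependent)
    (fun s => (v s : Y → K) y) h1 s
  exact h3

lemma gl_surjective (U : Submodule K (X → K)) (V : Submodule K (Y → K)) [Module.Finite K U]
    (F : Finset X) (hF : ∀ u ∈ U, ∀ x, x ∉ F → u x = 0) : Function.Surjective (gl U V) := by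
  classical
  rintro ⟨M, hM⟩
  -- restriction to `F`
  let rs : U →ₗ[K] (F → K) :=
    { toFun := fun u x => (u : X → K) x
      map_add' := fun _ _ => rfl
      map_smul' := fun _ _ => rfl }
  have hker : LinearMap.ker rs = ⊥ := by
    rw [LinearMap.ker_eq_bot']
    intro u hu
    apply Subtype.ext
    funext x
    by_cases hx : x ∈ F
    · exact congrFun hu ⟨x, hx⟩
    · exact hF u u.2 x hx
  obtain ⟨g, hg⟩ := rs.exists_leftInverse_of_injective hker
  let col : Y → U := fun y => ⟨fun x => M x y, hM.1 y⟩
  let b := Module.finBasis K U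
  have hrow : ∀ s, (fun y => b.repr (col y) s) ∈ V := by
    intro s
    have h1 : (fun y => b.repr (col y) s) =
        ∑ x : F, (b.repr (g (Pi.single x 1)) s) • M x := by
      funext y
      have h2 : col y = g (rs (col y)) := by
        have := congrArg (fun f => f (col y)) hg
        exact this.symm
      have h3 : rs (col y) = ∑ x : F, M x y • (Pi.single x 1 : F → K) := by
        funext x'
        rw [Finset.sum_apply]
        simp only [Pi.smul_apply, Pi.single_apply, smul_eq_mul, mul_ite, mul_one, mul_zero,
          Finset.sum_ite_eq, Finset.mem_univ, if_true]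
        rfl
      rw [h2, h3, map_sum, map_sum, Finset.sum_apply]
      simp only [map_smul, Finsupp.coe_finsetSum, Finset.sum_apply, Finsupp.smul_apply,
        smul_eq_mul, Pi.smul_apply]
      exact Finset.sum_congr rfl (fun x _ => mul_comm _ _)
    rw [h1]
    exact V.sum_mem (fun x _ => V.smul_mem _ (hM.2 x))
  refine ⟨fun s => ⟨_, hrow s⟩, ?_⟩
  apply Subtype.ext
  funext x y
  rw [gl_apply]
  have h4 := congrArg (fun u : U => (u : X → K) x) (b.sum_repr (col y))
  simp only [Submodule.coe_sum, Finset.sum_apply, Submodule.coe_smul, Pi.smul_apply,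
    smul_eq_mul] at h4
  show _ = M x y
  have h5 : (col y : X → K) x = M x y := rfl
  rw [← h5, ← h4]
  exact Finset.sum_congr rfl (fun s _ => mul_comm _ _)

/-- the equivalence -/
noncomputable def glEquiv (U : Submodule K (X → K)) (V : Submodule K (Y → K)) [Module.Finite K U]
    (F : Finset X) (hF : ∀ u ∈ U, ∀ x, x ∉ F → u x = 0) :
    (Fin (Module.finrank K U) → V) ≃ₗ[K] Wm U V :=
  LinearEquiv.ofBijective (gl U V) ⟨gl_injective U V, gl_surjective U V F hF⟩

lemma finite_Wm (U : Submodule K (X → K)) (V : Submodule K (Y → K)) [Module.Finite K U]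
    [Module.Finite K V] (F : Finset X) (hF : ∀ u ∈ U, ∀ x, x ∉ F → u x = 0) :
    Module.Finite K (Wm U V) := Module.Finite.equiv (glEquiv U V F hF)

lemma finrank_Wm (U : Submodule K (X → K)) (V : Submodule K (Y → K)) [Module.Finite K U]
    [Module.Finite K V] (F : Finset X) (hF : ∀ u ∈ U, ∀ x, x ∉ F → u x = 0) :
    Module.finrank K (Wm U V) = Module.finrank K U * Module.finrank K V := by
  rw [← LinearEquiv.finrank_eq (glEquiv U V F hF), Module.finrank_pi_fintype, Finset.sum_const,
    Finset.card_univ, Fintype.card_fin, smul_eq_mul]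

end Pool.Agent.W253.STP
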