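import Pool.Agent.W253.STP.Idx
import Pool.Agent.W253.STP.Tens
import Pool.Agent.W958.ST.Stms

/-!
Multi-derivations of a product arrangement (project ST, part ST-2).
-/

set_option autoImplicit false

namespace Pool.Agent.W253.STP

open MvPolynomial Pool.Agent.W958.ST

section
variable {K : Type} [Field K]

/-- array of coefficients -/
noncomputable def arr (n : ℕ) : (Finset (Fin n) → MvPolynomial (Fin n) K) →ₗ[K]
    (Finset (Fin n) × (Fin n →₀ ℕ) → K) where
  toFun c z := coeff z.2 (c z.1)
  map_add' c d := by funext z; simp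
  map_smul' r c := by funext z; simp

lemma arr_apply {n : ℕ} (c : Finset (Fin n) → MvPolynomial (Fin n) K)
    (z : Finset (Fin n) × (Fin n →₀ ℕ)) : arr n c z = coeff z.2 (c z.1) := rfl

lemma arr_injective (n : ℕ) : Function.Injective (arr (K := K) n) := by
  intro c d h
  funext I
  ext μ
  exact congrFun h (I, μ)

/-- arrays of the coordinate space -/
noncomputable def AC {n : ℕ} (L : Set (Fin n → K)) (p k : ℕ) :
    Submodule K (Finset (Fin n) × (Fin n →₀ ℕ) → K) := (PC L p k).map (arr n)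

lemma finrank_AC {n : ℕ} (L : Set (Fin n → K)) (p k : ℕ) :
    Module.finrank K (AC L p k) = Module.finrank K (DD L p k) := by
  rw [← finrank_PC]
  exact (LinearEquiv.finrank_eq (Submodule.equivMapOfInjective _ (arr_injective n) _)).symm

instance finite_AC {n : ℕ} (L : Set (Fin n → K)) (p k : ℕ) : Module.Finite K (AC L p k) :=
  Module.Finite.equiv (Submodule.equivMapOfInjective _ (arr_injective n) (PC L p k))

/-- support of arrays -/
lemma AC_supp {n : ℕ} {L : Set (Fin n → K)} {p k : ℕ}
    {u : Finset (Fin n) × (Fin n →₀ ℕ) → K} (hu : u ∈ AC L p k)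
    (z : Finset (Fin n) × (Fin n →₀ ℕ)) (hz : ¬ (z.1.card = p ∧ z.2.degree = k)) : u z = 0 := by
  obtain ⟨c, hc, rfl⟩ := hu
  rw [arr_apply]
  by_cases h1 : z.1.card = p
  · have h2 : z.2.degree ≠ k := fun h => hz ⟨h1, h⟩
    exact (hc.2.1 z.1).coeff_eq_zero h2
  · rw [hc.1 z.1 h1, coeff_zero]

lemma AC_fin {n : ℕ} (L : Set (Fin n → K)) (p k : ℕ) :
    ∃ F : Finset (Finset (Fin n) × (Fin n →₀ ℕ)), ∀ u ∈ AC L p k, ∀ x, x ∉ F → u x = 0 := by
  classical
  refine ⟨Finset.univ ×ˢ Finset.finsuppAntidiag Finset.univ k, fun u hu x hx => ?_⟩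
  apply AC_supp hu
  rintro ⟨_, h2⟩
  apply hx
  rw [Finset.mem_product, Finset.mem_finsuppAntidiag]
  refine ⟨Finset.mem_univ _, ?_, Finset.subset_univ _⟩
  rw [← h2, Finsupp.degree_eq_sum]

lemma isHomog_of_coeff {N : ℕ} (f : MvPolynomial (Fin N) K) (k : ℕ)
    (h : ∀ d : Fin N →₀ ℕ, d.degree ≠ k → coeff d f = 0) : f.IsHomogeneous k := by
  intro d hd
  by_contra hne
  apply hd
  apply h
  intro h2
  apply hne
  rw [← h2, Finsupp.degree_eq_weight_one]
  rfl

variable {m n : ℕ}

/-- total array of a coordinate family of the product -/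
noncomputable def tot (c : Finset (Fin (m + n)) → MvPolynomial (Fin (m + n)) K)
    (x : Finset (Fin m) × (Fin m →₀ ℕ)) (y : Finset (Fin n) × (Fin n →₀ ℕ)) : K :=
  coeff (ex x.2 y.2) (c (un x.1 y.1))

variable {L1 : Set (Fin m → K)} {L2 : Set (Fin n → K)} {p k : ℕ}

lemma tot_supp {c : Finset (Fin (m + n)) → MvPolynomial (Fin (m + n)) K}
    (h1 : ∀ I, I.card ≠ p → c I = 0) (h2 : ∀ I, (c I).IsHomogeneous k)
    (x : Finset (Fin m) × (Fin m →₀ ℕ)) (y : Finset (Fin n) × (Fin n →₀ ℕ))
    (h : ¬ (x.1.card + y.1.card = p ∧ x.2.degree + y.2.degree = k)) : tot c x y = 0 := by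
  rw [tot]
  by_cases h3 : x.1.card + y.1.card = p
  · apply (h2 _).coeff_eq_zero
    rw [ex_degree]
    exact fun h4 => h ⟨h3, h4⟩
  · rw [h1, coeff_zero]
    rw [card_un]
    exact h3

lemma col_mem {c : Finset (Fin (m + n)) → MvPolynomial (Fin (m + n)) K}
    (hc : c ∈ PC (prodArr L1 L2) p k) (y : Finset (Fin n) × (Fin n →₀ ℕ)) (a b : ℕ)
    (ha : a + y.1.card = p) (hb : b + y.2.degree = k) :
    (fun I => sl1 y.2 (c (un I y.1))) ∈ PC L1 a b := by
  refine ⟨fun I hI => ?_, fun I => ?_, ?_⟩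
  · show sl1 y.2 (c (un I y.1)) = 0
    rw [hc.1, map_zero]
    rw [card_un]
    omega
  · apply isHomog_of_coeff
    intro d hd
    rw [coeff_sl1]
    apply (hc.2.1 _).coeff_eq_zero
    rw [ex_degree]
    omega
  · exact ((cond_iff L1 L2 c).1 hc.2.2).1 y.1 y.2

lemma row_mem {c : Finset (Fin (m + n)) → MvPolynomial (Fin (m + n)) K}
    (hc : c ∈ PC (prodArr L1 L2) p k) (x : Finset (Fin m) × (Fin m →₀ ℕ)) (a b : ℕ)
    (ha : x.1.card + a = p) (hb : x.2.degree + b = k) :
    (fun J => sl2 x.2 (c (un x.1 J))) ∈ PC L2 a b := by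
  refine ⟨fun I hI => ?_, fun I => ?_, ?_⟩
  · show sl2 x.2 (c (un x.1 I)) = 0
    rw [hc.1, map_zero]
    rw [card_un]
    omega
  · apply isHomog_of_coeff
    intro d hd
    rw [coeff_sl2]
    apply (hc.2.1 _).coeff_eq_zero
    rw [ex_degree]
    omega
  · exact ((cond_iff L1 L2 c).1 hc.2.2).2 x.1 x.2

lemma blk_mem {c : Finset (Fin (m + n)) → MvPolynomial (Fin (m + n)) K}
    (hc : c ∈ PC (prodArr L1 L2) p k) (a b : ℕ) (ha : a ≤ p) (hb : b ≤ k) :
    (fun (x : Finset (Fin m) × (Fin m →₀ ℕ)) (y : Finset (Fin n) × (Fin n →₀ ℕ)) =>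
      if x.1.card = a ∧ x.2.degree = b then tot c x y else 0) ∈
      Wm (AC L1 a b) (AC L2 (p - a) (k - b)) := by
  constructor
  · intro y
    by_cases hy : a + y.1.card = p ∧ b + y.2.degree = k
    · refine ⟨_, col_mem hc y a b hy.1 hy.2, ?_⟩
      funext x
      rw [arr_apply, coeff_sl1]
      show tot c x y = if x.1.card = a ∧ x.2.degree = b then tot c x y else 0
      split_ifs with h
      · rfl
      · apply tot_supp hc.1 hc.2.1
        rintro ⟨h1, h2⟩
        apply h
        omega
    · have : (fun x : Finset (Fin m) × (Fin m →₀ ℕ) =>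
        if x.1.card = a ∧ x.2.degree = b then tot c x y else 0) = 0 := by
        funext x
        show (if x.1.card = a ∧ x.2.degree = b then tot c x y else 0) = 0
        split_ifs with h
        · apply tot_supp hc.1 hc.2.1
          rintro ⟨h1, h2⟩
          apply hy
          omega
        · rfl
      rw [this]
      exact Submodule.zero_mem _
  · intro x
    by_cases hx : x.1.card = a ∧ x.2.degree = b
    · refine ⟨_, row_mem hc x (p - a) (k - b) (by omega) (by omega), ?_⟩
      funext y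
      rw [arr_apply, coeff_sl2]
      show tot c x y = if x.1.card = a ∧ x.2.degree = b then tot c x y else 0
      rw [if_pos hx]
    · have : (fun y : Finset (Fin n) × (Fin n →₀ ℕ) =>
        if x.1.card = a ∧ x.2.degree = b then tot c x y else 0) = 0 := by
        funext y
        rw [if_neg hx]
        rfl
      show (fun y : Finset (Fin n) × (Fin n →₀ ℕ) =>
        if x.1.card = a ∧ x.2.degree = b then tot c x y else 0) ∈ _
      rw [this]
      exact Submodule.zero_mem _

variable (L1 L2 p k)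

/-- the block spaces -/
noncomputable abbrev Blk (t : Fin (p + 1) × Fin (k + 1)) :
    Submodule K ((Finset (Fin m) × (Fin m →₀ ℕ)) → (Finset (Fin n) × (Fin n →₀ ℕ)) → K) :=
  Wm (AC L1 (t.1 : ℕ) (t.2 : ℕ)) (AC L2 (p - (t.1 : ℕ)) (k - (t.2 : ℕ)))

/-- decomposition into blocks -/
noncomputable def dec : PC (prodArr L1 L2) p k →ₗ[K]
    ((t : Fin (p + 1) × Fin (k + 1)) → Blk L1 L2 p k t) where
  toFun c t := ⟨_, blk_mem c.2 (t.1 : ℕ) (t.2 : ℕ) (by omega) (by omega)⟩
  map_add' c d := by
    funext t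
    apply Subtype.ext
    funext x y
    show (if x.1.card = (t.1 : ℕ) ∧ x.2.degree = (t.2 : ℕ) then tot (c.1 + d.1) x y else 0) =
      (if x.1.card = (t.1 : ℕ) ∧ x.2.degree = (t.2 : ℕ) then tot c.1 x y else 0) +
      (if x.1.card = (t.1 : ℕ) ∧ x.2.degree = (t.2 : ℕ) then tot d.1 x y else 0)
    split_ifs
    · simp [tot]
    · simp
  map_smul' r c := by
    funext t
    apply Subtype.ext
    funext x y
    show (if x.1.card = (t.1 : ℕ) ∧ x.2.degree = (t.2 : ℕ) then tot (r • c.1) x y else 0) =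
      r • (if x.1.card = (t.1 : ℕ) ∧ x.2.degree = (t.2 : ℕ) then tot c.1 x y else 0)
    split_ifs
    · simp [tot]
    · simp

lemma dec_apply (c : PC (prodArr L1 L2) p k) (t : Fin (p + 1) × Fin (k + 1))
    (x : Finset (Fin m) × (Fin m →₀ ℕ)) (y : Finset (Fin n) × (Fin n →₀ ℕ)) :
    (dec L1 L2 p k c t : _ → _ → K) x y =
      if x.1.card = (t.1 : ℕ) ∧ x.2.degree = (t.2 : ℕ) then tot c.1 x y else 0 := rfl

lemma dec_injective : Function.Injective (dec L1 L2 p k) := by
  rw [injective_iff_map_eq_zero]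
  intro c hc
  apply Subtype.ext
  funext T
  ext θ
  obtain ⟨I, J, rfl⟩ := un_surj T
  obtain ⟨μ, ν, rfl⟩ := ex_surj θ
  show tot c.1 (I, μ) (J, ν) = 0
  by_cases h : I.card ≤ p ∧ μ.degree ≤ k
  · have h1 := dec_apply L1 L2 p k c (⟨I.card, by omega⟩, ⟨μ.degree, by omega⟩) (I, μ) (J, ν)
    rw [hc, if_pos ⟨rfl, rfl⟩] at h1
    rw [← h1]
    rfl
  · apply tot_supp c.2.1 c.2.2.1
    show ¬ (I.card + J.card = p ∧ μ.degree + ν.degree = k)
    omega

lemma dec_surjective : Function.Surjective (dec L1 L2 p k) := by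
  classical
  intro M
  -- total matrix
  let T : (Finset (Fin m) × (Fin m →₀ ℕ)) → (Finset (Fin n) × (Fin n →₀ ℕ)) → K := fun x y =>
    if h : x.1.card < p + 1 ∧ x.2.degree < k + 1 then
      (M (⟨x.1.card, h.1⟩, ⟨x.2.degree, h.2⟩) : _ → _ → K) x y else 0
  have hTt : ∀ (t : Fin (p + 1) × Fin (k + 1)) x y,
      (if x.1.card = (t.1 : ℕ) ∧ x.2.degree = (t.2 : ℕ) then T x y else 0) =
        (M t : _ → _ → K) x y := by
    intro t x y
    split_ifs with h
    · have h' : x.1.card < p + 1 ∧ x.2.degree < k + 1 := by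
        have := t.1.isLt
        have := t.2.isLt
        omega
      have e : ((⟨x.1.card, h'.1⟩, ⟨x.2.degree, h'.2⟩) : Fin (p + 1) × Fin (k + 1)) = t :=
        Prod.ext (Fin.ext h.1) (Fin.ext h.2)
      show (if h : x.1.card < p + 1 ∧ x.2.degree < k + 1 then
        (M (⟨x.1.card, h.1⟩, ⟨x.2.degree, h.2⟩) : _ → _ → K) x y else 0) = _
      rw [dif_pos h', e]
    · exact (AC_supp ((M t).2.1 y) x h).symm
  have hTs : ∀ x y, ¬ (x.1.card + y.1.card = p ∧ x.2.degree + y.2.degree = k) → T x y = 0 := by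
    intro x y h
    show (if h : x.1.card < p + 1 ∧ x.2.degree < k + 1 then
        (M (⟨x.1.card, h.1⟩, ⟨x.2.degree, h.2⟩) : _ → _ → K) x y else 0) = 0
    split_ifs with h'
    · apply AC_supp ((M (⟨x.1.card, h'.1⟩, ⟨x.2.degree, h'.2⟩)).2.2 x) y
      show ¬ (y.1.card = p - x.1.card ∧ y.2.degree = k - x.2.degree)
      omega
    · rfl
  -- the coordinate family
  let q1 : Finset (Fin (m + n)) → Finset (Fin m) := fun S => (un_surj S).choose
  let q2 : Finset (Fin (m + n)) → Finset (Fin n) := fun S => (un_surj S).choose_spec.choose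
  have hq : ∀ S, S = un (q1 S) (q2 S) := fun S => (un_surj S).choose_spec.choose_spec
  let r1 : (Fin (m + n) →₀ ℕ) → (Fin m →₀ ℕ) := fun θ => (ex_surj θ).choose
  let r2 : (Fin (m + n) →₀ ℕ) → (Fin n →₀ ℕ) := fun θ => (ex_surj θ).choose_spec.choose
  have hr : ∀ θ, θ = ex (r1 θ) (r2 θ) := fun θ => (ex_surj θ).choose_spec.choose_spec
  have hq' : ∀ I J, q1 (un I J) = I ∧ q2 (un I J) = J := by
    intro I J
    have := un_inj (hq (un I J))
    exact ⟨this.1.symm, this.2.symm⟩
  have hr' : ∀ μ ν, r1 (ex μ ν) = μ ∧ r2 (ex μ ν) = ν := by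
    intro μ ν
    have := ex_inj.1 (hr (ex μ ν))
    exact ⟨this.1.symm, this.2.symm⟩
  let c : Finset (Fin (m + n)) → MvPolynomial (Fin (m + n)) K := fun S =>
    ∑ θ ∈ Finset.finsuppAntidiag Finset.univ k, monomial θ (T (q1 S, r1 θ) (q2 S, r2 θ))
  have hcoeff : ∀ S θ, coeff θ (c S) = T (q1 S, r1 θ) (q2 S, r2 θ) := by
    intro S θ
    show coeff θ (∑ θ' ∈ Finset.finsuppAntidiag Finset.univ k,
      monomial θ' (T (q1 S, r1 θ') (q2 S, r2 θ'))) = _
    rw [coeff_sum]
    simp only [coeff_monomial]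
    rw [Finset.sum_ite_eq' _ θ]
    split_ifs with h
    · rfl
    · symm
      apply hTs
      rintro ⟨_, h2⟩
      apply h
      rw [Finset.mem_finsuppAntidiag]
      refine ⟨?_, Finset.subset_univ _⟩
      have h3 : θ.degree = k := by
        rw [hr θ, ex_degree]
        exact h2
      rw [← h3, Finsupp.degree_eq_sum]
  have htot : ∀ x y, tot c x y = T x y := by
    intro x y
    rw [tot, hcoeff, (hq' x.1 y.1).1, (hq' x.1 y.1).2, (hr' x.2 y.2).1, (hr' x.2 y.2).2]
  have hc : c ∈ PC (prodArr L1 L2) p k := by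
    refine ⟨fun S hS => ?_, fun S => ?_, ?_⟩
    · ext θ
      rw [hcoeff, coeff_zero]
      apply hTs
      rintro ⟨h1, _⟩
      apply hS
      rw [hq S, card_un]
      exact h1
    · apply isHomog_of_coeff
      intro θ hθ
      rw [hcoeff]
      apply hTs
      rintro ⟨_, h1⟩
      apply hθ
      rw [hr θ, ex_degree]
      exact h1
    · rw [cond_iff]
      constructor
      · intro J ν
        by_cases h : J.card ≤ p ∧ ν.degree ≤ k
        · have h1 : p - J.card < p + 1 := by omega
          have h2 : k - ν.degree < k + 1 := by omega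
          obtain ⟨d, hd, hd2⟩ := (M (⟨p - J.card, h1⟩, ⟨k - ν.degree, h2⟩)).2.1 (J, ν)
          have e : (fun I' => sl1 ν (c (un I' J))) = d := by
            funext I
            ext μ
            rw [coeff_sl1]
            have h3 : coeff μ (d I) =
              (M (⟨p - J.card, h1⟩, ⟨k - ν.degree, h2⟩) : _ → _ → K) (I, μ) (J, ν) :=
              congrFun hd2 (I, μ)
            rw [h3, ← hTt]
            show tot c (I, μ) (J, ν) = _
            rw [htot]
            split_ifs with h4
            · rfl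
            · apply hTs
              intro h5
              apply h4
              have h6 : I.card + J.card = p ∧ μ.degree + ν.degree = k := h5
              show I.card = p - J.card ∧ μ.degree = k - ν.degree
              omega
          rw [e]
          exact hd.2.2
        · have e : (fun I' => sl1 ν (c (un I' J))) = 0 := by
            funext I
            ext μ
            rw [coeff_sl1]
            show tot c (I, μ) (J, ν) = _
            rw [htot, hTs]
            · simp
            · show ¬ (I.card + J.card = p ∧ μ.degree + ν.degree = k)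
              omega
          rw [e]
          exact (Submodule.zero_mem (PC L1 p k)).2.2
      · intro I μ
        by_cases h : I.card ≤ p ∧ μ.degree ≤ k
        · have h1 : I.card < p + 1 := by omega
          have h2 : μ.degree < k + 1 := by omega
          obtain ⟨d, hd, hd2⟩ := (M (⟨I.card, h1⟩, ⟨μ.degree, h2⟩)).2.2 (I, μ)
          have e : (fun J' => sl2 μ (c (un I J'))) = d := by
            funext J
            ext ν
            rw [coeff_sl2]
            have h3 : coeff ν (d J) =
              (M (⟨I.card, h1⟩, ⟨μ.degree, h2⟩) : _ → _ → K) (I, μ) (J, ν) :=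
              congrFun hd2 (J, ν)
            rw [h3, ← hTt]
            show tot c (I, μ) (J, ν) = _
            rw [htot, if_pos ⟨rfl, rfl⟩]
          rw [e]
          exact hd.2.2
        · have e : (fun J' => sl2 μ (c (un I J'))) = 0 := by
            funext J
            ext ν
            rw [coeff_sl2]
            show tot c (I, μ) (J, ν) = _
            rw [htot, hTs]
            · simp
            · show ¬ (I.card + J.card = p ∧ μ.degree + ν.degree = k)
              omega
          rw [e]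
          exact (Submodule.zero_mem (PC L2 p k)).2.2
  refine ⟨⟨c, hc⟩, ?_⟩
  funext t
  apply Subtype.ext
  funext x y
  rw [dec_apply, ← hTt]
  show (if _ then tot c x y else 0) = _
  rw [htot]

end

/-- ST-2. -/
theorem main : StProd := by
  intro K _ m n L1 L2 p k
  have e : PC (prodArr L1 L2) p k ≃ₗ[K]
      ((t : Fin (p + 1) × Fin (k + 1)) → Blk L1 L2 p k t) :=
    LinearEquiv.ofBijective (dec L1 L2 p k) ⟨dec_injective L1 L2 p k, dec_surjective L1 L2 p k⟩
  have hfin : ∀ t : Fin (p + 1) × Fin (k + 1), Module.Finite K (Blk L1 L2 p k t) := by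
    intro t
    obtain ⟨F, hF⟩ := AC_fin L1 (t.1 : ℕ) (t.2 : ℕ)
    exact finite_Wm _ _ F hF
  have hrank : ∀ t : Fin (p + 1) × Fin (k + 1), Module.finrank K (Blk L1 L2 p k t) =
      Module.finrank K (DD L1 (t.1 : ℕ) (t.2 : ℕ)) *
        Module.finrank K (DD L2 (p - (t.1 : ℕ)) (k - (t.2 : ℕ))) := by
    intro t
    obtain ⟨F, hF⟩ := AC_fin L1 (t.1 : ℕ) (t.2 : ℕ)
    rw [finrank_Wm _ _ F hF, finrank_AC, finrank_AC]
  rw [← finrank_PC, LinearEquiv.finrank_eq e, Module.finrank_pi_fintype,
    Fintype.sum_prod_type, Finset.sum_range]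
  refine Finset.sum_congr rfl (fun a _ => ?_)
  rw [Finset.sum_range]
  exact Finset.sum_congr rfl (fun b _ => hrank (a, b))

end Pool.Agent.W253.STP
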