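import Pool.Agent.W958.ST.FDim

/-!
Coordinates of alternating forms indexed by subsets (project ST, part ST-2).
-/

set_option autoImplicit false

namespace Pool.Agent.W253.STP

open MvPolynomial Pool.Agent.W958.ST

/-- sign of inserting `i` into `I` -/
def sg {n : ℕ} (i : Fin n) (I : Finset (Fin n)) : ℤ := (-1) ^ (I.filter (fun x => x < i)).card

lemma rank_lt {n q : ℕ} (I : Finset (Fin n)) (h : I.card = q) (i : Fin n) (l : Fin q) :
    I.orderEmbOfFin h l < i ↔ (l : ℕ) < (I.filter (fun x => x < i)).card := by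
  have hc : (I.filter (fun x => x < i)).card =
      (Finset.univ.filter (fun l' => I.orderEmbOfFin h l' < i)).card := by
    conv_lhs => rw [← Finset.map_orderEmbOfFin_univ I h]
    rw [Finset.filter_map, Finset.card_map]
    rfl
  rw [hc]
  constructor
  · intro hl
    have hsub : Finset.Iic l ⊆ Finset.univ.filter (fun l' => I.orderEmbOfFin h l' < i) := by
      intro l' hl'
      rw [Finset.mem_filter]
      exact ⟨Finset.mem_univ _, lt_of_le_of_lt
        ((I.orderEmbOfFin h).monotone (Finset.mem_Iic.1 hl')) hl⟩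
    have := Finset.card_le_card hsub
    rw [Fin.card_Iic] at this
    omega
  · intro hl
    by_contra hneg
    have hsub : Finset.univ.filter (fun l' => I.orderEmbOfFin h l' < i) ⊆ Finset.Iio l := by
      intro l' hl'
      rw [Finset.mem_filter] at hl'
      rw [Finset.mem_Iio]
      by_contra hh
      exact hneg (lt_of_le_of_lt ((I.orderEmbOfFin h).monotone (not_lt.1 hh)) hl'.2)
    have := Finset.card_le_card hsub
    rw [Fin.card_Iio] at this
    omega

lemma insertNth_eq {n q : ℕ} (I : Finset (Fin n)) (h : I.card = q) (i : Fin n) (hi : i ∉ I)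
    (h' : (insert i I).card = q + 1) (j : Fin (q + 1))
    (hj : (j : ℕ) = (I.filter (fun x => x < i)).card) :
    (j.insertNth i (fun l => I.orderEmbOfFin h l) : Fin (q + 1) → Fin n) =
      (insert i I).orderEmbOfFin h' := by
  apply Finset.orderEmbOfFin_unique
  · intro x
    refine Fin.succAboveCases j ?_ (fun l => ?_) x
    · simp
    · simp
  · intro a b hab
    rcases Fin.eq_self_or_eq_succAbove j a with rfl | ⟨a', rfl⟩
    · rcases Fin.eq_self_or_eq_succAbove a b with rfl | ⟨b', rfl⟩
      · exact absurd hab (lt_irrefl _)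
      · rw [Fin.insertNth_apply_same, Fin.insertNth_apply_succAbove]
        have h1 : a ≤ Fin.castSucc b' := Fin.lt_succAbove_iff_le_castSucc _ _ |>.1 hab
        have h2 : ¬ I.orderEmbOfFin h b' < i := by
          rw [rank_lt, ← hj]
          have : (a : ℕ) ≤ b' := h1
          omega
        have h3 : I.orderEmbOfFin h b' ≠ i := by
          intro e
          exact hi (e ▸ Finset.orderEmbOfFin_mem I h b')
        exact lt_of_le_of_ne (not_lt.1 h2) (Ne.symm h3)
    · rcases Fin.eq_self_or_eq_succAbove j b with rfl | ⟨b', rfl⟩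
      · rw [Fin.insertNth_apply_same, Fin.insertNth_apply_succAbove]
        have h1 : Fin.castSucc a' < b := Fin.succAbove_lt_iff_castSucc_lt _ _ |>.1 hab
        rw [rank_lt, ← hj]
        exact h1
      · rw [Fin.insertNth_apply_succAbove, Fin.insertNth_apply_succAbove]
        exact (I.orderEmbOfFin h).strictMono (Fin.succAbove_lt_succAbove_iff.1 hab)

lemma sort_tuple {n p : ℕ} (w : Fin p → Fin n) (hw : Function.Injective w) :
    ∃ (I : Finset (Fin n)) (h : I.card = p) (σ : Equiv.Perm (Fin p)),
      w = (fun j => I.orderEmbOfFin h j) ∘ σ := by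
  have hcard : (Finset.univ.image w).card = p := by
    rw [Finset.card_image_of_injective _ hw, Finset.card_univ, Fintype.card_fin]
  refine ⟨Finset.univ.image w, hcard, ?_⟩
  have hu : ∀ j, ∃ i, (Finset.univ.image w).orderEmbOfFin hcard i = w j := by
    intro j
    have h : w j ∈ Set.range ((Finset.univ.image w).orderEmbOfFin hcard) := by
      rw [Finset.range_orderEmbOfFin]
      simp
    exact h
  choose f hf using hu
  have hfi : Function.Injective f := by
    intro i j hij
    apply hw
    rw [← hf i, ← hf j, hij]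
  refine ⟨Equiv.ofBijective f (Finite.injective_iff_bijective.mp hfi), ?_⟩
  funext j
  exact (hf j).symm

section
variable {K : Type} [Field K]

/-- contraction in coordinates -/
noncomputable def ctr {n : ℕ} {M : Type} [AddCommGroup M] [Module K M] (α : Fin n → K)
    (c : Finset (Fin n) → M) (I : Finset (Fin n)) : M :=
  ∑ i ∈ Iᶜ, (((sg i I : ℤ) : K) * α i) • c (insert i I)

lemma ctr_add {n : ℕ} {M : Type} [AddCommGroup M] [Module K M] (α : Fin n → K)
    (c d : Finset (Fin n) → M) (I : Finset (Fin n)) : ctr α (c + d) I = ctr α c I + ctr α d I := by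
  simp only [ctr, Pi.add_apply, smul_add, Finset.sum_add_distrib]

lemma ctr_smul {n : ℕ} {M : Type} [AddCommGroup M] [Module K M] (α : Fin n → K) (r : K)
    (c : Finset (Fin n) → M) (I : Finset (Fin n)) : ctr α (r • c) I = r • ctr α c I := by
  simp only [ctr, Pi.smul_apply, Finset.smul_sum]
  exact Finset.sum_congr rfl (fun i _ => smul_comm _ _ _)

/-- the coordinate space -/
noncomputable def PC {n : ℕ} (L : Set (Fin n → K)) (p k : ℕ) :
    Submodule K (Finset (Fin n) → MvPolynomial (Fin n) K) where
  carrier := {c | (∀ I, I.card ≠ p → c I = 0) ∧ (∀ I, (c I).IsHomogeneous k) ∧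
    ∀ α ∈ L, ∀ I, lin α ∣ ctr α c I}
  add_mem' := by
    intro c d hc hd
    refine ⟨fun I hI => ?_, fun I => (hc.2.1 I).add (hd.2.1 I), fun α hα I => ?_⟩
    · rw [Pi.add_apply, hc.1 I hI, hd.1 I hI, add_zero]
    · rw [ctr_add]
      exact dvd_add (hc.2.2 α hα I) (hd.2.2 α hα I)
  zero_mem' := by
    refine ⟨fun I _ => rfl, fun I => isHomogeneous_zero _ _ _, fun α _ I => ?_⟩
    simp [ctr]
  smul_mem' := by
    intro r c hc
    refine ⟨fun I hI => ?_, fun I => ?_, fun α hα I => ?_⟩
    · rw [Pi.smul_apply, hc.1 I hI, smul_zero]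
    · rw [Pi.smul_apply, MvPolynomial.smul_eq_C_mul]
      simpa using (isHomogeneous_C _ r).mul (hc.2.1 I)
    · rw [ctr_smul, MvPolynomial.smul_eq_C_mul]
      exact Dvd.dvd.mul_left (hc.2.2 α hα I) _

lemma mem_PC {n : ℕ} {L : Set (Fin n → K)} {p k : ℕ}
    {c : Finset (Fin n) → MvPolynomial (Fin n) K} : c ∈ PC L p k ↔
    (∀ I, I.card ≠ p → c I = 0) ∧ (∀ I, (c I).IsHomogeneous k) ∧
    ∀ α ∈ L, ∀ I, lin α ∣ ctr α c I := Iff.rfl

/-- the coordinates -/
noncomputable def toC (n p : ℕ) :
    Alt (Fin n) K (Fin n) p →ₗ[K] (Finset (Fin n) → MvPolynomial (Fin n) K) where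
  toFun ω I := if h : I.card = p then ω (fun j => Pi.single (I.orderEmbOfFin h j) 1) else 0
  map_add' ω η := by
    funext I
    simp only [Pi.add_apply]
    split_ifs with h
    · rfl
    · simp
  map_smul' r ω := by
    funext I
    simp only [Pi.smul_apply, RingHom.id_apply]
    split_ifs with h
    · rfl
    · simp

lemma toC_apply {n p : ℕ} (ω : Alt (Fin n) K (Fin n) p) (I : Finset (Fin n)) (h : I.card = p) :
    toC n p ω I = ω (fun j => Pi.single (I.orderEmbOfFin h j) 1) := by
  show (if h : I.card = p then ω (fun j => Pi.single (I.orderEmbOfFin h j) 1) else 0) = _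
  rw [dif_pos h]

lemma toC_zero {n p : ℕ} (ω : Alt (Fin n) K (Fin n) p) (I : Finset (Fin n)) (h : I.card ≠ p) :
    toC n p ω I = 0 := by
  show (if h : I.card = p then ω (fun j => Pi.single (I.orderEmbOfFin h j) 1) else 0) = _
  rw [dif_neg h]

/-- values on all tuples from the coordinates -/
lemma value_cases {n p : ℕ} (ω : Alt (Fin n) K (Fin n) p) (w : Fin p → Fin n) :
    ω (fun j => Pi.single (w j) 1) = 0 ∨ ∃ (I : Finset (Fin n)) (s : ℤˣ), I.card = p ∧
      ω (fun j => Pi.single (w j) 1) = s • toC n p ω I := by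
  by_cases hw : Function.Injective w
  · right
    obtain ⟨I, h, σ, hσ⟩ := sort_tuple w hw
    refine ⟨I, Equiv.Perm.sign σ, h, ?_⟩
    rw [toC_apply ω I h]
    have h2 := ω.map_perm
      (fun j => (Pi.single (I.orderEmbOfFin h j) 1 : Fin n → MvPolynomial (Fin n) K)) σ
    rw [← h2]
    congr 1
    funext j
    rw [hσ]
    rfl
  · left
    exact apply_single_of_not_injective ω w hw

lemma toC_injective (n p : ℕ) : Function.Injective (toC (K := K) n p) := by
  intro ω η h
  rw [← sub_eq_zero] at h ⊢
  rw [← map_sub] at h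
  apply ext_single
  intro w
  rw [AlternatingMap.zero_apply]
  rcases value_cases (ω - η) w with h1 | ⟨I, s, _, h1⟩
  · exact h1
  · rw [h1, h]
    simp

lemma alt_sum_apply {R M : Type*} [CommRing R] [AddCommGroup M] [Module R M] {n : ℕ}
    {ι : Type*} (s : Finset ι) (f : ι → (M [⋀^Fin n]→ₗ[R] R)) (v : Fin n → M) :
    (∑ i ∈ s, f i) v = ∑ i ∈ s, f i v := by
  classical
  induction s using Finset.induction_on with
  | empty => simp
  | insert a s ha ih => rw [Finset.sum_insert ha, Finset.sum_insert ha, AlternatingMap.add_apply, ih]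

/-- the contraction in coordinates -/
lemma ctr_toC {n q : ℕ} (ω : Alt (Fin n) K (Fin n) (q + 1)) (α : Fin n → K)
    (I : Finset (Fin n)) (h : I.card = q) :
    ctr α (toC n (q + 1) ω) I =
      ω.curryLeft (cv α) (fun j => Pi.single (I.orderEmbOfFin h j) 1) := by
  have hcv : (cv α : Fin n → MvPolynomial (Fin n) K) =
      ∑ i, α i • (Pi.single i 1 : Fin n → MvPolynomial (Fin n) K) := by
    funext l
    rw [Finset.sum_apply]
    simp only [Pi.smul_apply, Pi.single_apply, smul_ite, smul_zero, Finset.sum_ite_eq,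
      Finset.mem_univ, if_true, cv]
    rw [MvPolynomial.smul_eq_C_mul, mul_one]
  have hval : ∀ i, ω.curryLeft (Pi.single i 1) (fun j => Pi.single (I.orderEmbOfFin h j) 1) =
      if i ∈ Iᶜ then ((sg i I : ℤ) : K) • toC n (q + 1) ω (insert i I) else 0 := by
    intro i
    rw [AlternatingMap.curryLeft_apply_apply]
    split_ifs with hi
    · rw [Finset.mem_compl] at hi
      have h' : (insert i I).card = q + 1 := by rw [Finset.card_insert_of_notMem hi, h]
      have hle : (I.filter (fun x => x < i)).card < q + 1 := by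
        have := Finset.card_filter_le I (fun x => x < i)
        omega
      set j : Fin (q + 1) := ⟨(I.filter (fun x => x < i)).card, hle⟩ with hj
      rw [toC_apply ω _ h']
      have e1 := insertNth_eq I h i hi h' j rfl
      have e2 := ω.map_insertNth j (Pi.single i 1 : Fin n → MvPolynomial (Fin n) K)
        (fun l => Pi.single (I.orderEmbOfFin h l) 1)
      have e3 : (j.insertNth (Pi.single i 1 : Fin n → MvPolynomial (Fin n) K)
        (fun l => Pi.single (I.orderEmbOfFin h l) 1) :
          Fin (q + 1) → (Fin n → MvPolynomial (Fin n) K)) =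
        fun l => Pi.single ((insert i I).orderEmbOfFin h' l) 1 := by
        funext l
        rw [← e1]
        refine Fin.succAboveCases j ?_ (fun l' => ?_) l
        · simp
        · simp
      rw [e3] at e2
      rw [e2]
      have e4 : ((sg i I : ℤ) : K) = ((-1 : ℤ) ^ (j : ℕ) : ℤ) := by
        rw [sg, hj]
      rw [e4, smul_eq_C_mul]
      simp only [zsmul_eq_mul]
      push_cast
      rw [← mul_assoc, map_pow, map_neg, map_one, ← mul_pow]
      simp
    · rw [Finset.mem_compl, not_not] at hi
      have : i ∈ Set.range (I.orderEmbOfFin h) := by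
        rw [Finset.range_orderEmbOfFin]
        exact hi
      obtain ⟨l, hl⟩ := this
      refine ω.map_eq_zero_of_eq _ (i := 0) (j := l.succ) ?_ (Fin.succ_ne_zero l).symm
      simp [hl]
  rw [hcv, map_sum, alt_sum_apply, ctr, ← Finset.sum_filter_add_sum_filter_not Finset.univ
    (fun i => i ∈ Iᶜ)]
  have e5 : ∀ i, ω.curryLeft (α i • (Pi.single i 1 : Fin n → MvPolynomial (Fin n) K))
      (fun j => Pi.single (I.orderEmbOfFin h j) 1) =
      α i • ω.curryLeft (Pi.single i 1) (fun j => Pi.single (I.orderEmbOfFin h j) 1) := by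
    intro i
    have e6 : α i • (Pi.single i 1 : Fin n → MvPolynomial (Fin n) K) =
        (C (α i) : MvPolynomial (Fin n) K) • Pi.single i 1 := by
      funext l
      simp [MvPolynomial.smul_eq_C_mul]
    rw [e6, map_smul, AlternatingMap.smul_apply, smul_eq_mul, MvPolynomial.smul_eq_C_mul]
  have e7 : ∑ i ∈ Finset.univ.filter (fun i => ¬ i ∈ Iᶜ),
      ω.curryLeft (α i • (Pi.single i 1 : Fin n → MvPolynomial (Fin n) K))
      (fun j => Pi.single (I.orderEmbOfFin h j) 1) = 0 := by
    apply Finset.sum_eq_zero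
    intro i hi
    rw [Finset.mem_filter] at hi
    rw [e5, hval, if_neg hi.2, smul_zero]
  rw [e7, add_zero]
  have e8 : Finset.univ.filter (fun i => i ∈ Iᶜ) = Iᶜ := by
    ext i
    simp
  rw [e8]
  refine Finset.sum_congr rfl (fun i hi => ?_)
  rw [e5, hval, if_pos hi, smul_smul, mul_comm]

lemma dvd_units {R : Type*} [CommRing R] (f x : R) (s : ℤˣ) (h : f ∣ x) : f ∣ s • x := by
  rcases Int.units_eq_one_or s with rfl | rfl
  · simpa using h
  · simpa using h

lemma dvd_all {n q : ℕ} (η : Alt (Fin n) K (Fin n) q) (f : MvPolynomial (Fin n) K)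
    (h : ∀ (I : Finset (Fin n)) (h : I.card = q),
      f ∣ η (fun j => Pi.single (I.orderEmbOfFin h j) 1)) (v : Fin q → (Fin n → MvPolynomial (Fin n) K)) :
    f ∣ η v := by
  rw [expand_single η v]
  apply Finset.dvd_sum
  intro w _
  apply Dvd.dvd.mul_left
  rcases value_cases η w with h1 | ⟨I, s, hI, h1⟩
  · rw [h1]; exact dvd_zero _
  · rw [h1, toC_apply η I hI]
    exact dvd_units _ _ _ (h I hI)

lemma toC_mem {n : ℕ} (L : Set (Fin n → K)) (p k : ℕ) (ω : Alt (Fin n) K (Fin n) p) :
    ω ∈ DD L p k ↔ toC n p ω ∈ PC L p k := by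
  constructor
  · intro hω
    refine ⟨fun I hI => toC_zero ω I hI, fun I => ?_, fun α hα I => ?_⟩
    · by_cases h : I.card = p
      · rw [toC_apply ω I h]
        exact hω.2 _
      · rw [toC_zero ω I h]
        exact isHomogeneous_zero _ _ _
    · by_cases h : I.card + 1 = p
      · subst h
        rw [ctr_toC ω α I rfl]
        exact (forall_dvd_iff ω (cv α) (lin α)).1 (hω.1 α hα) _
      · rw [ctr, Finset.sum_eq_zero]
        · exact dvd_zero _
        · intro i hi
          rw [toC_zero, smul_zero]
          rw [Finset.card_insert_of_notMem (Finset.mem_compl.1 hi)]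
          exact h
  · intro hc
    refine ⟨fun α hα => ?_, fun w => ?_⟩
    · cases p with
      | zero => intro v j; exact j.elim0
      | succ q =>
        rw [forall_dvd_iff]
        apply dvd_all
        intro I h
        rw [← ctr_toC ω α I h]
        exact hc.2.2 α hα I
    · rcases value_cases ω w with h1 | ⟨I, s, _, h1⟩
      · rw [h1]; exact isHomogeneous_zero _ _ _
      · rw [h1]
        have h2 := hc.2.1 I
        rcases Int.units_eq_one_or s with rfl | rfl
        · simpa using h2
        · have h3 := (isHomogeneous_C (Fin n) (-1 : K)).mul h2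
          simpa using h3

lemma exists_toC {n p : ℕ} (c : Finset (Fin n) → MvPolynomial (Fin n) K)
    (hc : ∀ I, I.card ≠ p → c I = 0) : ∃ ω : Alt (Fin n) K (Fin n) p, toC n p ω = c := by
  obtain ⟨ω, hω⟩ := exists_incr (n := p) (Pi.basisFun (MvPolynomial (Fin n) K) (Fin n))
    (fun u => c (Finset.univ.map u.toEmbedding))
  refine ⟨ω, ?_⟩
  funext I
  by_cases h : I.card = p
  · rw [toC_apply ω I h]
    have h1 := hω (I.orderEmbOfFin h)
    rw [Finset.map_orderEmbOfFin_univ] at h1
    simpa only [Pi.basisFun_apply] using h1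
  · rw [toC_zero ω I h, hc I h]

lemma map_DD {n : ℕ} (L : Set (Fin n → K)) (p k : ℕ) :
    (DD L p k).map (toC n p) = PC L p k := by
  ext c
  rw [Submodule.mem_map]
  constructor
  · rintro ⟨ω, hω, rfl⟩
    exact (toC_mem L p k ω).1 hω
  · intro hc
    obtain ⟨ω, rfl⟩ := exists_toC c hc.1
    exact ⟨ω, (toC_mem L p k ω).2 hc, rfl⟩

lemma finrank_PC {n : ℕ} (L : Set (Fin n → K)) (p k : ℕ) :
    Module.finrank K (PC L p k) = Module.finrank K (DD L p k) := by
  rw [← map_DD]
  exact (LinearEquiv.finrank_eq (Submodule.equivMapOfInjective _ (toC_injective n p) _)).symm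

instance finite_PC {n : ℕ} (L : Set (Fin n → K)) (p k : ℕ) : Module.Finite K (PC L p k) := by
  rw [← map_DD]
  infer_instance

end

end Pool.Agent.W253.STP
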