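import Pool.Agent.W253.STP.Coord

/-!
Subsets and exponents of `Fin (m + n)`, slices of polynomials.
-/

set_option autoImplicit false

namespace Pool.Agent.W253.STP

open MvPolynomial Pool.Agent.W958.ST

section idx
variable {m n : ℕ}

lemma cast_ne_nat (i : Fin m) (j : Fin n) : Fin.castAdd n i ≠ Fin.natAdd m j := by
  intro h
  have := congrArg Fin.val h
  simp at this
  omega

/-- union of two subsets -/
def un (I : Finset (Fin m)) (J : Finset (Fin n)) : Finset (Fin (m + n)) :=
  I.map (Fin.castAddEmb n) ∪ J.map (Fin.natAddEmb m)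

lemma mem_un_cast {I : Finset (Fin m)} {J : Finset (Fin n)} {i : Fin m} :
    Fin.castAdd n i ∈ un I J ↔ i ∈ I := by
  rw [un, Finset.mem_union, Finset.mem_map, Finset.mem_map]
  constructor
  · rintro (⟨i', hi, h⟩ | ⟨j, hj, h⟩)
    · have : i' = i := Fin.castAdd_injective m n h
      subst this; exact hi
    · exact absurd h.symm (cast_ne_nat i j)
  · intro h; exact Or.inl ⟨i, h, rfl⟩

lemma mem_un_nat {I : Finset (Fin m)} {J : Finset (Fin n)} {j : Fin n} :
    Fin.natAdd m j ∈ un I J ↔ j ∈ J := by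
  rw [un, Finset.mem_union, Finset.mem_map, Finset.mem_map]
  constructor
  · rintro (⟨i', hi, h⟩ | ⟨j', hj, h⟩)
    · exact absurd h (cast_ne_nat i' j)
    · have : j' = j := Fin.natAdd_injective n m h
      subst this; exact hj
  · intro h; exact Or.inr ⟨j, h, rfl⟩

lemma disj_un (I : Finset (Fin m)) (J : Finset (Fin n)) :
    Disjoint (I.map (Fin.castAddEmb n)) (J.map (Fin.natAddEmb m)) := by
  rw [Finset.disjoint_left]
  intro x hx hy
  rw [Finset.mem_map] at hx hy
  obtain ⟨i, _, rfl⟩ := hx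
  obtain ⟨j, _, h⟩ := hy
  exact cast_ne_nat i j h.symm

lemma card_un (I : Finset (Fin m)) (J : Finset (Fin n)) :
    (un I J).card = I.card + J.card := by
  rw [un, Finset.card_union_of_disjoint (disj_un I J), Finset.card_map, Finset.card_map]

lemma sum_un {M : Type*} [AddCommMonoid M] (I : Finset (Fin m)) (J : Finset (Fin n))
    (g : Fin (m + n) → M) : ∑ x ∈ un I J, g x =
      ∑ i ∈ I, g (Fin.castAdd n i) + ∑ j ∈ J, g (Fin.natAdd m j) := by
  rw [un, Finset.sum_union (disj_un I J), Finset.sum_map, Finset.sum_map]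
  rfl

lemma ext_un {T T' : Finset (Fin (m + n))}
    (h1 : ∀ i : Fin m, Fin.castAdd n i ∈ T ↔ Fin.castAdd n i ∈ T')
    (h2 : ∀ j : Fin n, Fin.natAdd m j ∈ T ↔ Fin.natAdd m j ∈ T') : T = T' := by
  ext x
  exact Fin.addCases (fun i => h1 i) (fun j => h2 j) x

lemma un_surj (T : Finset (Fin (m + n))) : ∃ (I : Finset (Fin m)) (J : Finset (Fin n)),
    T = un I J := by
  refine ⟨Finset.univ.filter (fun i => Fin.castAdd n i ∈ T),
    Finset.univ.filter (fun j => Fin.natAdd m j ∈ T), ext_un (fun i => ?_) (fun j => ?_)⟩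
  · rw [mem_un_cast]; simp
  · rw [mem_un_nat]; simp

lemma un_inj {I I' : Finset (Fin m)} {J J' : Finset (Fin n)} (h : un I J = un I' J') :
    I = I' ∧ J = J' := by
  constructor
  · ext i
    rw [← mem_un_cast (I := I) (J := J), h, mem_un_cast]
  · ext j
    rw [← mem_un_nat (I := I) (J := J), h, mem_un_nat]

lemma insert_cast (i : Fin m) (I : Finset (Fin m)) (J : Finset (Fin n)) :
    insert (Fin.castAdd n i) (un I J) = un (insert i I) J := by
  refine ext_un (fun i' => ?_) (fun j => ?_)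
  · rw [Finset.mem_insert, mem_un_cast, mem_un_cast, Finset.mem_insert,
      (Fin.castAdd_injective m n).eq_iff]
  · rw [Finset.mem_insert, mem_un_nat, mem_un_nat]
    exact ⟨fun h => h.resolve_left (fun e => cast_ne_nat _ _ e.symm), Or.inr⟩

lemma insert_nat (j : Fin n) (I : Finset (Fin m)) (J : Finset (Fin n)) :
    insert (Fin.natAdd m j) (un I J) = un I (insert j J) := by
  refine ext_un (fun i' => ?_) (fun j' => ?_)
  · rw [Finset.mem_insert, mem_un_cast, mem_un_cast]
    exact ⟨fun h => h.resolve_left (fun e => cast_ne_nat _ _ e), Or.inr⟩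
  · rw [Finset.mem_insert, mem_un_nat, mem_un_nat, Finset.mem_insert,
      (Fin.natAdd_injective n m).eq_iff]

lemma compl_un (I : Finset (Fin m)) (J : Finset (Fin n)) : (un I J)ᶜ = un Iᶜ Jᶜ := by
  refine ext_un (fun i' => ?_) (fun j' => ?_)
  · rw [Finset.mem_compl, mem_un_cast, mem_un_cast, Finset.mem_compl]
  · rw [Finset.mem_compl, mem_un_nat, mem_un_nat, Finset.mem_compl]

lemma filter_cast (i : Fin m) (I : Finset (Fin m)) (J : Finset (Fin n)) :
    (un I J).filter (fun x => x < Fin.castAdd n i) = un (I.filter (fun x => x < i)) ∅ := by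
  refine ext_un (fun i' => ?_) (fun j' => ?_)
  · rw [Finset.mem_filter, mem_un_cast, mem_un_cast, Finset.mem_filter]
    rfl
  · rw [Finset.mem_filter, mem_un_nat, mem_un_nat]
    constructor
    · rintro ⟨_, h⟩
      exfalso
      have : m + (j' : ℕ) < (i : ℕ) := h
      have := i.isLt
      omega
    · intro h
      simp at h

lemma filter_nat (j : Fin n) (I : Finset (Fin m)) (J : Finset (Fin n)) :
    (un I J).filter (fun x => x < Fin.natAdd m j) = un I (J.filter (fun x => x < j)) := by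
  refine ext_un (fun i' => ?_) (fun j' => ?_)
  · rw [Finset.mem_filter, mem_un_cast, mem_un_cast]
    constructor
    · exact fun h => h.1
    · intro h
      refine ⟨h, ?_⟩
      show (i' : ℕ) < m + (j : ℕ)
      have := i'.isLt
      omega
  · rw [Finset.mem_filter, mem_un_nat, mem_un_nat, Finset.mem_filter]
    have : (Fin.natAdd m j' < Fin.natAdd m j) ↔ j' < j := by
      show m + (j' : ℕ) < m + (j : ℕ) ↔ (j' : ℕ) < j
      omega
    rw [this]

lemma sg_cast (i : Fin m) (I : Finset (Fin m)) (J : Finset (Fin n)) :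
    sg (Fin.castAdd n i) (un I J) = sg i I := by
  rw [sg, sg, filter_cast, card_un, Finset.card_empty, add_zero]

lemma sg_nat (j : Fin n) (I : Finset (Fin m)) (J : Finset (Fin n)) :
    sg (Fin.natAdd m j) (un I J) = (-1) ^ I.card * sg j J := by
  rw [sg, sg, filter_nat, card_un, pow_add]

/-- union of two exponents -/
noncomputable def ex (μ : Fin m →₀ ℕ) (ν : Fin n →₀ ℕ) : Fin (m + n) →₀ ℕ :=
  Finsupp.equivFunOnFinite.symm (Fin.append μ ν)

lemma ex_cast (μ : Fin m →₀ ℕ) (ν : Fin n →₀ ℕ) (i : Fin m) :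
    ex μ ν (Fin.castAdd n i) = μ i := by simp [ex]

lemma ex_nat (μ : Fin m →₀ ℕ) (ν : Fin n →₀ ℕ) (j : Fin n) :
    ex μ ν (Fin.natAdd m j) = ν j := by simp [ex]

lemma ext_ex {θ θ' : Fin (m + n) →₀ ℕ}
    (h1 : ∀ i : Fin m, θ (Fin.castAdd n i) = θ' (Fin.castAdd n i))
    (h2 : ∀ j : Fin n, θ (Fin.natAdd m j) = θ' (Fin.natAdd m j)) : θ = θ' := by
  ext x
  exact Fin.addCases (fun i => h1 i) (fun j => h2 j) x

lemma ex_surj (θ : Fin (m + n) →₀ ℕ) : ∃ (μ : Fin m →₀ ℕ) (ν : Fin n →₀ ℕ), θ = ex μ ν := by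
  refine ⟨Finsupp.equivFunOnFinite.symm (fun i => θ (Fin.castAdd n i)),
    Finsupp.equivFunOnFinite.symm (fun j => θ (Fin.natAdd m j)), ext_ex (fun i => ?_)
    (fun j => ?_)⟩
  · rw [ex_cast]; simp
  · rw [ex_nat]; simp

lemma ex_inj {μ μ' : Fin m →₀ ℕ} {ν ν' : Fin n →₀ ℕ} : ex μ ν = ex μ' ν' ↔ μ = μ' ∧ ν = ν' := by
  constructor
  · intro h
    constructor
    · ext i
      rw [← ex_cast μ ν, h, ex_cast]
    · ext j
      rw [← ex_nat μ ν, h, ex_nat]
  · rintro ⟨rfl, rfl⟩; rfl

lemma ex_degree (μ : Fin m →₀ ℕ) (ν : Fin n →₀ ℕ) :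
    (ex μ ν).degree = μ.degree + ν.degree := by
  rw [Finsupp.degree_eq_sum, Finsupp.degree_eq_sum, Finsupp.degree_eq_sum, Fin.sum_univ_add]
  simp only [ex_cast, ex_nat]

lemma ex_eq (μ : Fin m →₀ ℕ) (ν : Fin n →₀ ℕ) :
    ex μ ν = μ.mapDomain (Fin.castAdd n) + ν.mapDomain (Fin.natAdd m) := by
  refine ext_ex (fun i => ?_) (fun j => ?_)
  · rw [ex_cast, Finsupp.add_apply, Finsupp.mapDomain_apply (Fin.castAdd_injective m n),
      Finsupp.mapDomain_of_notMem_range, add_zero]
    rintro ⟨j, hj⟩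
    exact cast_ne_nat i j hj.symm
  · rw [ex_nat, Finsupp.add_apply, Finsupp.mapDomain_apply (Fin.natAdd_injective n m),
      Finsupp.mapDomain_of_notMem_range, zero_add]
    rintro ⟨i, hi⟩
    exact cast_ne_nat i j hi

end idx

section poly
variable {K : Type} [Field K] {m n : ℕ}

/-- polynomials in the second group with coefficients polynomials in the first -/
noncomputable def e1 (K : Type) [Field K] (m n : ℕ) :
    MvPolynomial (Fin (m + n)) K ≃ₐ[K] MvPolynomial (Fin n) (MvPolynomial (Fin m) K) :=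
  (renameEquiv K (finSumFinEquiv.symm.trans (Equiv.sumComm _ _))).trans
    (sumAlgEquiv K (Fin n) (Fin m))

/-- polynomials in the first group with coefficients polynomials in the second -/
noncomputable def e2 (K : Type) [Field K] (m n : ℕ) :
    MvPolynomial (Fin (m + n)) K ≃ₐ[K] MvPolynomial (Fin m) (MvPolynomial (Fin n) K) :=
  (renameEquiv K finSumFinEquiv.symm).trans (sumAlgEquiv K (Fin m) (Fin n))

lemma e1_X_cast (i : Fin m) : e1 K m n (X (Fin.castAdd n i)) = C (X i) := by
  simp [e1]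

lemma e1_X_nat (j : Fin n) : e1 K m n (X (Fin.natAdd m j)) = X j := by
  simp [e1]

lemma e2_X_cast (i : Fin m) : e2 K m n (X (Fin.castAdd n i)) = X i := by
  simp [e2]

lemma e2_X_nat (j : Fin n) : e2 K m n (X (Fin.natAdd m j)) = C (X j) := by
  simp [e2]

lemma e1_C (r : K) : e1 K m n (C r) = C (C r) := by
  simp [e1]

lemma e2_C (r : K) : e2 K m n (C r) = C (C r) := by
  simp [e2]

lemma e1_cast (g : MvPolynomial (Fin m) K) : e1 K m n (rename (Fin.castAdd n) g) = C g := by
  induction g using MvPolynomial.induction_on with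
  | C r => rw [rename_C, e1_C]
  | add p q hp hq => rw [map_add, map_add, hp, hq, C_add]
  | mul_X p i hp => rw [map_mul, map_mul, hp, rename_X, e1_X_cast, C_mul]

lemma e2_nat (g : MvPolynomial (Fin n) K) : e2 K m n (rename (Fin.natAdd m) g) = C g := by
  induction g using MvPolynomial.induction_on with
  | C r => rw [rename_C, e2_C]
  | add p q hp hq => rw [map_add, map_add, hp, hq, C_add]
  | mul_X p i hp => rw [map_mul, map_mul, hp, rename_X, e2_X_nat, C_mul]

lemma e1_nat (g : MvPolynomial (Fin n) K) :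
    e1 K m n (rename (Fin.natAdd m) g) = map (C : K →+* MvPolynomial (Fin m) K) g := by
  induction g using MvPolynomial.induction_on with
  | C r => rw [rename_C, e1_C, map_C]
  | add p q hp hq => rw [map_add, map_add, hp, hq, map_add]
  | mul_X p i hp => rw [map_mul, map_mul, hp, rename_X, e1_X_nat, map_mul, map_X]

lemma e2_cast (g : MvPolynomial (Fin m) K) :
    e2 K m n (rename (Fin.castAdd n) g) = map (C : K →+* MvPolynomial (Fin n) K) g := by
  induction g using MvPolynomial.induction_on with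
  | C r => rw [rename_C, e2_C, map_C]
  | add p q hp hq => rw [map_add, map_add, hp, hq, map_add]
  | mul_X p i hp => rw [map_mul, map_mul, hp, rename_X, e2_X_cast, map_mul, map_X]

lemma monomial_ex (μ : Fin m →₀ ℕ) (ν : Fin n →₀ ℕ) (r : K) :
    monomial (ex μ ν) r = rename (Fin.castAdd n) (monomial μ r) *
      rename (Fin.natAdd m) (monomial ν 1) := by
  rw [rename_monomial, rename_monomial, monomial_mul, mul_one, ex_eq]

lemma e1_monomial (μ : Fin m →₀ ℕ) (ν : Fin n →₀ ℕ) (r : K) :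
    e1 K m n (monomial (ex μ ν) r) = monomial ν (monomial μ r) := by
  rw [monomial_ex, map_mul, e1_cast, e1_nat, map_monomial, C_mul_monomial, map_one, mul_one]

lemma e2_monomial (μ : Fin m →₀ ℕ) (ν : Fin n →₀ ℕ) (r : K) :
    e2 K m n (monomial (ex μ ν) r) = monomial μ (monomial ν r) := by
  rw [monomial_ex, map_mul, e2_cast, e2_nat, map_monomial, mul_comm, C_mul_monomial,
    mul_comm, C_mul_monomial, mul_one]

lemma coeff_e1 (μ : Fin m →₀ ℕ) (ν : Fin n →₀ ℕ) (f : MvPolynomial (Fin (m + n)) K) :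
    coeff μ (coeff ν (e1 K m n f)) = coeff (ex μ ν) f := by
  induction f using MvPolynomial.induction_on' with
  | monomial θ r =>
    obtain ⟨μ', ν', rfl⟩ := ex_surj θ
    rw [e1_monomial, coeff_monomial, coeff_monomial]
    by_cases h2 : ν' = ν
    · subst h2
      rw [if_pos rfl, coeff_monomial]
      by_cases h1 : μ' = μ
      · subst h1; simp
      · rw [if_neg h1, if_neg]
        rw [ex_inj]
        exact fun h => h1 h.1
    · rw [if_neg h2, coeff_zero, if_neg]
      rw [ex_inj]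
      exact fun h => h2 h.2
  | add p q hp hq => rw [map_add, coeff_add, coeff_add, coeff_add, hp, hq]

lemma coeff_e2 (μ : Fin m →₀ ℕ) (ν : Fin n →₀ ℕ) (f : MvPolynomial (Fin (m + n)) K) :
    coeff ν (coeff μ (e2 K m n f)) = coeff (ex μ ν) f := by
  induction f using MvPolynomial.induction_on' with
  | monomial θ r =>
    obtain ⟨μ', ν', rfl⟩ := ex_surj θ
    rw [e2_monomial, coeff_monomial, coeff_monomial]
    by_cases h2 : μ' = μ
    · subst h2
      rw [if_pos rfl, coeff_monomial]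
      by_cases h1 : ν' = ν
      · subst h1; simp
      · rw [if_neg h1, if_neg]
        rw [ex_inj]
        exact fun h => h1 h.2
    · rw [if_neg h2, coeff_zero, if_neg]
      rw [ex_inj]
      exact fun h => h2 h.1
  | add p q hp hq => rw [map_add, coeff_add, coeff_add, coeff_add, hp, hq]

/-- slice with fixed exponent in the second group -/
noncomputable def sl1 (ν : Fin n →₀ ℕ) :
    MvPolynomial (Fin (m + n)) K →ₗ[K] MvPolynomial (Fin m) K where
  toFun f := coeff ν (e1 K m n f)
  map_add' f g := by rw [map_add, coeff_add]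
  map_smul' r f := by
    rw [map_smul, RingHom.id_apply]
    exact coeff_smul _ _ _

/-- slice with fixed exponent in the first group -/
noncomputable def sl2 (μ : Fin m →₀ ℕ) :
    MvPolynomial (Fin (m + n)) K →ₗ[K] MvPolynomial (Fin n) K where
  toFun f := coeff μ (e2 K m n f)
  map_add' f g := by rw [map_add, coeff_add]
  map_smul' r f := by
    rw [map_smul, RingHom.id_apply]
    exact coeff_smul _ _ _

lemma coeff_sl1 (μ : Fin m →₀ ℕ) (ν : Fin n →₀ ℕ) (f : MvPolynomial (Fin (m + n)) K) :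
    coeff μ (sl1 ν f) = coeff (ex μ ν) f := coeff_e1 μ ν f

lemma coeff_sl2 (μ : Fin m →₀ ℕ) (ν : Fin n →₀ ℕ) (f : MvPolynomial (Fin (m + n)) K) :
    coeff ν (sl2 μ f) = coeff (ex μ ν) f := coeff_e2 μ ν f

lemma dvd_sl1 (g : MvPolynomial (Fin m) K) (f : MvPolynomial (Fin (m + n)) K) :
    rename (Fin.castAdd n) g ∣ f ↔ ∀ ν, g ∣ sl1 ν f := by
  rw [← map_dvd_iff (e1 K m n), e1_cast, C_dvd_iff_dvd_coeff]
  rfl

lemma dvd_sl2 (g : MvPolynomial (Fin n) K) (f : MvPolynomial (Fin (m + n)) K) :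
    rename (Fin.natAdd m) g ∣ f ↔ ∀ μ, g ∣ sl2 μ f := by
  rw [← map_dvd_iff (e2 K m n), e2_nat, C_dvd_iff_dvd_coeff]
  rfl

lemma lin_cast (α : Fin m → K) : lin (Fin.append α (0 : Fin n → K)) =
    rename (Fin.castAdd n) (lin α) := by
  rw [lin, lin, Fin.sum_univ_add, map_sum]
  simp

lemma lin_nat (β : Fin n → K) : lin (Fin.append (0 : Fin m → K) β) =
    rename (Fin.natAdd m) (lin β) := by
  rw [lin, lin, Fin.sum_univ_add, map_sum]
  simp

lemma ctr_cast {M : Type} [AddCommGroup M] [Module K M] (α : Fin m → K)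
    (c : Finset (Fin (m + n)) → M) (I : Finset (Fin m)) (J : Finset (Fin n)) :
    ctr (Fin.append α (0 : Fin n → K)) c (un I J) = ctr α (fun I' => c (un I' J)) I := by
  rw [ctr, ctr, compl_un, sum_un]
  simp only [Fin.append_left, Fin.append_right, Pi.zero_apply, mul_zero, zero_smul,
    Finset.sum_const_zero, add_zero, sg_cast, insert_cast]

lemma ctr_nat {M : Type} [AddCommGroup M] [Module K M] (β : Fin n → K)
    (c : Finset (Fin (m + n)) → M) (I : Finset (Fin m)) (J : Finset (Fin n)) :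
    ctr (Fin.append (0 : Fin m → K) β) c (un I J) =
      ((-1 : K) ^ I.card) • ctr β (fun J' => c (un I J')) J := by
  rw [ctr, ctr, compl_un, sum_un]
  simp only [Fin.append_left, Fin.append_right, Pi.zero_apply, mul_zero, zero_smul,
    Finset.sum_const_zero, zero_add, sg_nat, insert_nat, Finset.smul_sum, smul_smul]
  refine Finset.sum_congr rfl (fun j _ => ?_)
  congr 1
  push_cast
  ring

lemma ctr_map {N : ℕ} {M M' : Type} [AddCommGroup M] [Module K M] [AddCommGroup M'] [Module K M']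
    (f : M →ₗ[K] M') (α : Fin N → K) (c : Finset (Fin N) → M) (I : Finset (Fin N)) :
    f (ctr α c I) = ctr α (fun I' => f (c I')) I := by
  rw [ctr, ctr, map_sum]
  exact Finset.sum_congr rfl (fun i _ => by rw [map_smul])

lemma dvd_sign {N : ℕ} (f g : MvPolynomial (Fin N) K) (k : ℕ) :
    f ∣ ((-1 : K) ^ k) • g ↔ f ∣ g := by
  rcases neg_one_pow_eq_or K k with h | h
  · rw [h, one_smul]
  · rw [h, neg_smul, one_smul, dvd_neg]

/-- divisibility conditions for a product arrangement -/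
lemma cond_iff (L1 : Set (Fin m → K)) (L2 : Set (Fin n → K))
    (c : Finset (Fin (m + n)) → MvPolynomial (Fin (m + n)) K) :
    (∀ α ∈ prodArr L1 L2, ∀ T, lin α ∣ ctr α c T) ↔
      (∀ (J : Finset (Fin n)) (ν : Fin n →₀ ℕ), ∀ α ∈ L1, ∀ I,
        lin α ∣ ctr α (fun I' => sl1 ν (c (un I' J))) I) ∧
      (∀ (I : Finset (Fin m)) (μ : Fin m →₀ ℕ), ∀ β ∈ L2, ∀ J,
        lin β ∣ ctr β (fun J' => sl2 μ (c (un I J'))) J) := by
  constructor
  · intro h
    refine ⟨fun J ν α hα I => ?_, fun I μ β hβ J => ?_⟩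
    · have h1 := h _ (Or.inl ⟨α, hα, rfl⟩) (un I J)
      rw [lin_cast, dvd_sl1] at h1
      have h2 := h1 ν
      rw [ctr_cast, ctr_map] at h2
      exact h2
    · have h1 := h _ (Or.inr ⟨β, hβ, rfl⟩) (un I J)
      rw [lin_nat, dvd_sl2] at h1
      have h2 := h1 μ
      rw [ctr_nat, map_smul, dvd_sign, ctr_map] at h2
      exact h2
  · rintro ⟨h1, h2⟩ γ hγ T
    obtain ⟨I, J, rfl⟩ := un_surj T
    rcases hγ with ⟨α, hα, rfl⟩ | ⟨β, hβ, rfl⟩
    · show lin (Fin.append α (0 : Fin n → K)) ∣ ctr (Fin.append α (0 : Fin n → K)) c (un I J)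
      rw [lin_cast, dvd_sl1]
      intro ν
      rw [ctr_cast, ctr_map]
      exact h1 J ν α hα I
    · show lin (Fin.append (0 : Fin m → K) β) ∣ ctr (Fin.append (0 : Fin m → K) β) c (un I J)
      rw [lin_nat, dvd_sl2]
      intro μ
      rw [ctr_nat, map_smul, dvd_sign, ctr_map]
      exact h2 I μ β hβ J

end poly

end Pool.Agent.W253.STP
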